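import Pool.Agent.Work.MP_223b32_es.Interface

/-! # Block VALJ (helper41) -/

namespace Pool.Agent.Work.ES

open Finset Polynomial Module Pool.Agent.Work.MP_223b32_ag Pool.Agent.Work.TC
open Pool.Agent.Work.TL (AA Om)

namespace VALJ

theorem choose_ndvd_small {p a b : ℕ} (hp : p.Prime) (ha : a < p) (hb : b ≤ a) :
    ¬ p ∣ a.choose b := by
  intro h
  have h1 := Nat.choose_mul_factorial_mul_factorial hb
  have h2 : p ∣ a.factorial := by
    rw [← h1]
    exact Dvd.dvd.mul_right (Dvd.dvd.mul_right h _) _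
  rw [hp.dvd_factorial] at h2
  omega

theorem choose_ndvd {p : ℕ} [hp : Fact p.Prime] (h6 : p % 6 = 1) :
    ∀ f n k : ℕ, 2 * n + 1 = p ^ f → 3 * k + 1 = p ^ f → ¬ p ∣ n.choose k := by
  obtain ⟨m, hm⟩ : ∃ m, p = 6 * m + 1 := ⟨p / 6, by omega⟩
  have hp1 := hp.out.one_lt
  have hmpos : 0 < m := by omega
  intro f
  induction f with
  | zero =>
    intro n k hn hk
    have hn0 : n = 0 := by simpa using hn
    have hk0 : k = 0 := by simpa using hk
    subst hn0 hk0
    simp
    omega
  | succ f ih =>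
    intro n k hn hk
    rw [pow_succ] at hn hk
    -- p ^ f is 1 modulo 6
    have hpf : p ^ f % 6 = 1 := by
      rw [Nat.pow_mod, h6]
      simp
    obtain ⟨t, ht⟩ : ∃ t, p ^ f = 6 * t + 1 := ⟨p ^ f / 6, by omega⟩
    have hn' : n = p * (3 * t) + 3 * m := by
      have : 2 * n + 1 = (6 * t + 1) * p := by rw [hn, ht]
      nlinarith
    have hk' : k = p * (2 * t) + 2 * m := by
      have : 3 * k + 1 = (6 * t + 1) * p := by rw [hk, ht]
      nlinarith
    have h3 : 3 * m < p := by omega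
    have h4 : 2 * m < p := by omega
    have hnm : n % p = 3 * m := by
      rw [hn', Nat.mul_add_mod, Nat.mod_eq_of_lt h3]
    have hnd : n / p = 3 * t := by
      rw [hn', Nat.mul_add_div (by omega), Nat.div_eq_of_lt h3, add_zero]
    have hkm : k % p = 2 * m := by
      rw [hk', Nat.mul_add_mod, Nat.mod_eq_of_lt h4]
    have hkd : k / p = 2 * t := by
      rw [hk', Nat.mul_add_div (by omega), Nat.div_eq_of_lt h4, add_zero]
    have hL := Choose.choose_modEq_choose_mod_mul_choose_div_nat (p := p) (n := n) (k := k)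
    rw [hnm, hkm, hnd, hkd] at hL
    intro hdvd
    have h5 : p ∣ (3 * m).choose (2 * m) * (3 * t).choose (2 * t) :=
      (hL.dvd_iff dvd_rfl).1 hdvd
    rcases hp.out.dvd_mul.1 h5 with h6' | h6'
    · exact choose_ndvd_small hp.out h3 (by omega) h6'
    · exact ih (3 * t) (2 * t) (by omega) (by omega) h6'

variable {F : Type} [Field F] [Fintype F]

theorem sum_pow_gen [DecidableEq F] (i : ℕ) (hi : 0 < i) :
    ∑ x : F, x ^ i = if Fintype.card F - 1 ∣ i then -1 else 0 := by
  rw [← FiniteField.sum_pow_units F i]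
  have h1 : ∑ x : F, x ^ i = ∑ x ∈ univ.filter (fun x : F => x ≠ 0), x ^ i := by
    rw [Finset.sum_filter]
    refine Finset.sum_congr rfl fun x _ => ?_
    by_cases hx : x = 0
    · simp [hx, hi.ne']
    · simp [hx]
  rw [h1]
  symm
  refine Finset.sum_bij (fun (x : Fˣ) _ => (x : F)) ?_ ?_ ?_ ?_
  · intro x _
    simp
  · intro x _ y _ h
    exact Units.ext h
  · intro y hy
    rw [Finset.mem_filter] at hy
    exact ⟨Units.mk0 y hy.2, mem_univ _, rfl⟩
  · intro x _
    rfl

/-- the key sum -/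
theorem key_sum [DecidableEq F] {n k : ℕ} (hn : 2 * n + 1 = Fintype.card F)
    (hk : 3 * k + 1 = Fintype.card F) (hkpos : 0 < k) :
    ∑ c : F, (1 + c) ^ n * c ^ (2 * k) = - (n.choose k : F) := by
  have h1 : ∀ c : F, (1 + c) ^ n * c ^ (2 * k) =
      ∑ j ∈ range (n + 1), (n.choose j : F) * c ^ (j + 2 * k) := by
    intro c
    rw [add_comm, add_pow, Finset.sum_mul]
    refine Finset.sum_congr rfl fun j _ => ?_
    rw [one_pow, mul_one, pow_add]
    ring
  simp_rw [h1]
  rw [Finset.sum_comm]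
  simp_rw [← Finset.mul_sum]
  have h2 : ∀ j ∈ range (n + 1), (n.choose j : F) * ∑ c : F, c ^ (j + 2 * k) =
      if j = k then - (n.choose k : F) else 0 := by
    intro j hj
    rw [mem_range] at hj
    rw [sum_pow_gen _ (by omega)]
    have h3 : Fintype.card F - 1 = 3 * k := by omega
    rw [h3]
    by_cases hjk : j = k
    · subst hjk
      rw [if_pos ⟨1, by ring⟩, if_pos rfl]
      ring
    · rw [if_neg, if_neg hjk, mul_zero]
      rintro ⟨c, hc⟩
      have : c = 0 ∨ c = 1 ∨ 2 ≤ c := by omega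
      rcases this with rfl | rfl | hc2
      · omega
      · omega
      · have h5 : 3 * k * 2 ≤ 3 * k * c := Nat.mul_le_mul_left _ hc2
        omega
  rw [Finset.sum_congr rfl h2, Finset.sum_ite_eq' (range (n + 1)) k]
  rw [if_pos]
  rw [mem_range]
  omega

variable [DecidableEq F]

omit [Fintype F] [DecidableEq F] in
theorem int_char (σ : MulChar F ℂ) (h : σ ^ 3 = 1) (c : F) : IsIntegral ℤ (σ c) := by
  by_cases hc : c = 0
  · rw [hc, MulChar.map_zero]
    exact isIntegral_zero
  · refine IsIntegral.of_pow (n := 3) (by norm_num) ?_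
    have h1 : σ c ^ 3 = (σ ^ 3) c := by
      rw [MulChar.pow_apply' σ (by norm_num)]
    rw [h1, h, MulChar.one_apply (IsUnit.mk0 c hc)]
    exact isIntegral_one

/-- the character with values in the ring of algebraic integers -/
noncomputable def sA (σ : MulChar F ℂ) (h : σ ^ 3 = 1) : F →* AA where
  toFun c := ⟨σ c, int_char σ h c⟩
  map_one' := by
    apply Subtype.ext
    simp
  map_mul' a b := by
    apply Subtype.ext
    simp

theorem sA_zero (σ : MulChar F ℂ) (h : σ ^ 3 = 1) : sA σ h 0 = 0 := by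
  apply Subtype.ext
  exact MulChar.map_zero σ

theorem sA_cube (σ : MulChar F ℂ) (h : σ ^ 3 = 1) (c : F) (hc : c ≠ 0) : sA σ h c ^ 3 = 1 := by
  apply Subtype.ext
  have h1 : σ c ^ 3 = (σ ^ 3) c := by
    rw [MulChar.pow_apply' σ (by norm_num)]
  simp only [sA, MonoidHom.coe_mk, OneHom.coe_mk, SubmonoidClass.coe_pow, OneMemClass.coe_one]
  rw [h1, h, MulChar.one_apply (IsUnit.mk0 c hc)]

theorem jj_eq (σ : MulChar F ℂ) (h : σ ^ 3 = 1) (x : AA) (hx : (x : ℂ) = jj σ) :
    x = -((quadraticChar F (-1) : ℤ) : AA) *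
      ∑ c : F, ((quadraticChar F (1 + c) : ℤ) : AA) * sA σ h c := by
  apply Subtype.ext
  rw [hx]
  unfold jj msumC
  push_cast
  congr 1
  rw [← Equiv.sum_comp (Equiv.funUnique (Fin 1) F).symm]
  refine Finset.sum_congr rfl fun c _ => ?_
  simp only [XX, MonoidHom.coe_mk, OneHom.coe_mk, mon, sA]
  have h1 : (X ^ 1 + ∑ i : Fin 1, C (((Equiv.funUnique (Fin 1) F).symm c) i) * X ^ (i : ℕ) : F[X]) =
      X + C c := by
    simp
  rw [h1]
  simp

variable {Ω : Type} [Field Ω]

theorem main {p : ℕ} [Fact p.Prime] [CharP F p] [CharP Ω p] (ι : F →+* Ω) (σ : MulChar F ℂ)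
    (h : σ ^ 3 = 1) (π : AA →+* Ω) (x : AA) (hx : (x : ℂ) = jj σ) {n k : ℕ}
    (hn : 2 * n + 1 = Fintype.card F) (hk : 3 * k + 1 = Fintype.card F) (hkpos : 0 < k)
    (h6 : p % 6 = 1) (hψ : ∀ c, π (sA σ h c) = ι c ^ (2 * k)) : π x ≠ 0 := by
  obtain ⟨f, hfp, hf⟩ := FiniteField.card F p
  have hchar : ringChar F ≠ 2 := by
    rw [ringChar.eq F p]
    omega
  have hdiv : Fintype.card F / 2 = n := by omega
  rw [jj_eq σ h x hx, map_mul, map_neg, map_intCast, map_sum]
  have h1 : ∀ c : F, π (((quadraticChar F (1 + c) : ℤ) : AA) * sA σ h c) =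
      ι ((1 + c) ^ n * c ^ (2 * k)) := by
    intro c
    rw [map_mul, map_intCast, hψ, map_mul, map_pow ι c]
    congr 1
    rw [← hdiv, ← quadraticChar_eq_pow_of_char_ne_two' hchar, map_intCast]
  rw [Finset.sum_congr rfl fun c _ => h1 c, ← map_sum, key_sum hn hk hkpos]
  refine mul_ne_zero ?_ ?_
  · rw [neg_ne_zero]
    have h2 : (quadraticChar F (-1) : ℤ) ^ 2 = 1 := quadraticChar_sq_one (by simp)
    intro h3
    have h4 : (((quadraticChar F (-1) : ℤ) ^ 2 : ℤ) : Ω) = 0 := by
      push_cast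
      rw [h3]
      ring
    rw [h2] at h4
    simp at h4
  · rw [map_neg, neg_ne_zero, map_natCast]
    intro h2
    rw [CharP.cast_eq_zero_iff Ω p] at h2
    exact choose_ndvd h6 f n k (by rw [hn, hf]) (by rw [hk, hf]) h2

end VALJ

theorem stmt_VALJ : Stmt_VALJ := by
  intro F _ _ _ p _ _ hq hp3 τ hτ1 hτ3 π x y hx hy
  classical
  set Ω := AlgebraicClosure (ZMod p) with hΩ
  have hp := (Fact.out : p.Prime)
  obtain ⟨f, -, hf⟩ := FiniteField.card F p
  -- p is odd
  have hp2 : p % 2 = 1 := by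
    rcases hp.eq_two_or_odd with h | h
    · exfalso
      rw [h] at hf
      have h2 : 2 ∣ Fintype.card F := by
        rw [hf]
        exact dvd_pow_self 2 f.ne_zero
      omega
    · exact h
  have h6 : p % 6 = 1 := by omega
  obtain ⟨n, hn⟩ : ∃ n, 2 * n + 1 = Fintype.card F := ⟨Fintype.card F / 2, by omega⟩
  obtain ⟨k, hk⟩ : ∃ k, 3 * k + 1 = Fintype.card F := ⟨Fintype.card F / 3, by omega⟩
  have hkpos : 0 < k := by
    have := Fintype.one_lt_card (α := F)
    omega
  have : CharP Ω p := inferInstance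
  let _ : Algebra (ZMod p) F := ZMod.algebra F p
  let ι : F →+* Ω := (IsAlgClosed.lift (R := ZMod p) (S := F) (M := Ω)).toRingHom
  obtain ⟨g, hg⟩ := IsCyclic.exists_generator (α := Fˣ)
  -- inverse character
  have hτ3' : τ⁻¹ ^ 3 = 1 := by rw [inv_pow, hτ3, inv_one]
  -- values on a generator
  have hcard : Fintype.card F - 1 = 3 * k := by omega
  have hgpow : (ι (g : F)) ^ (3 * k) = 1 := by
    rw [← map_pow, ← hcard, FiniteField.pow_card_sub_one_eq_one _ g.ne_zero, map_one]
  set ω : Ω := ι (g : F) ^ k with hω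
  have hω3 : ω ^ 3 = 1 := by rw [hω, ← pow_mul, mul_comm, hgpow]
  have hω1 : ω ≠ 1 := by
    intro h
    have h1 : (g : F) ^ k = 1 := by
      apply ι.injective
      rw [map_pow, map_one, ← hω, h]
    have h2 : g ^ k = 1 := Units.ext (by simpa using h1)
    have h3 : orderOf g = Nat.card Fˣ := orderOf_eq_card_of_forall_mem_zpowers hg
    have h4 := orderOf_le_of_pow_eq_one hkpos h2
    rw [h3, Nat.card_eq_fintype_card, Fintype.card_units] at h4
    omega
  have hωq : ω ^ 2 + ω + 1 = 0 := by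
    have h1 : (ω - 1) * (ω ^ 2 + ω + 1) = 0 := by
      have : (ω - 1) * (ω ^ 2 + ω + 1) = ω ^ 3 - 1 := by ring
      rw [this, hω3, sub_self]
    exact (mul_eq_zero.1 h1).resolve_left (sub_ne_zero.2 hω1)
  -- a cube root of unity different from 1 is ω or ω ^ 2
  have hroot : ∀ z : Ω, z ^ 3 = 1 → z ≠ 1 → z = ω ∨ z = ω ^ 2 := by
    intro z hz hz1
    have h1 : z ^ 2 + z + 1 = 0 := by
      have h1 : (z - 1) * (z ^ 2 + z + 1) = 0 := by
        have : (z - 1) * (z ^ 2 + z + 1) = z ^ 3 - 1 := by ring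
        rw [this, hz, sub_self]
      exact (mul_eq_zero.1 h1).resolve_left (sub_ne_zero.2 hz1)
    have h2 : (z - ω) * (z - ω ^ 2) = 0 := by
      have h3 : (z - ω) * (z - ω ^ 2) = z ^ 2 - (ω ^ 2 + ω) * z + ω ^ 3 := by ring
      rw [h3, hω3]
      have h4 : ω ^ 2 + ω = -1 := by linear_combination hωq
      rw [h4]
      linear_combination h1
    rcases mul_eq_zero.1 h2 with h3 | h3
    · left; exact sub_eq_zero.1 h3
    · right; exact sub_eq_zero.1 h3
  -- extension from the generator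
  have hext : ∀ (σ : MulChar F ℂ) (h : σ ^ 3 = 1), π (VALJ.sA σ h g) = ω ^ 2 →
      ∀ c, π (VALJ.sA σ h c) = ι c ^ (2 * k) := by
    intro σ h hσ c
    by_cases hc : c = 0
    · rw [hc, VALJ.sA_zero, map_zero, map_zero, zero_pow (by omega)]
    · obtain ⟨j, hj⟩ := (mem_powers_iff_mem_zpowers.2 (hg (Units.mk0 c hc)))
      have hj' : c = (g : F) ^ j := by
        have := congrArg Units.val hj
        simpa using this.symm
      rw [hj', map_pow, map_pow, hσ, map_pow, hω]
      ring
  have hval : π (VALJ.sA τ hτ3 g) = ω ∨ π (VALJ.sA τ hτ3 g) = ω ^ 2 := by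
    refine hroot _ ?_ ?_
    · rw [← map_pow, VALJ.sA_cube τ hτ3 _ g.ne_zero, map_one]
    · intro h1
      -- τ g ≠ 1
      have h2 : VALJ.sA τ hτ3 (g : F) ≠ 1 := by
        intro h2
        apply hτ1
        ext u
        obtain ⟨j, hj⟩ := (mem_powers_iff_mem_zpowers.2 (hg u))
        have h3 : τ (g : F) = 1 := by
          have := congrArg Subtype.val h2
          simpa [VALJ.sA] using this
        have h4 : (u : F) = (g : F) ^ j := by
          have := congrArg Units.val hj
          simpa using this.symm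
        rw [h4, map_pow, h3, one_pow, map_pow, MulChar.one_apply_coe, one_pow]
      set z := VALJ.sA τ hτ3 (g : F) with hz
      have h3 : z ^ 2 + z + 1 = 0 := by
        have h4 : (z - 1) * (z ^ 2 + z + 1) = 0 := by
          have : (z - 1) * (z ^ 2 + z + 1) = z ^ 3 - 1 := by ring
          rw [this, hz, VALJ.sA_cube τ hτ3 _ g.ne_zero, sub_self]
        exact (mul_eq_zero.1 h4).resolve_left (sub_ne_zero.2 h2)
      have h4 : (3 : Ω) = 0 := by
        have := congrArg π h3
        rw [map_add, map_add, map_pow, h1, map_one, map_zero] at this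
        linear_combination this
      have h5 : ((3 : ℕ) : Ω) = 0 := by exact_mod_cast h4
      rw [CharP.cast_eq_zero_iff Ω p] at h5
      have := Nat.le_of_dvd (by norm_num) h5
      have h7 := hp.two_le
      omega
  rcases hval with hval | hval
  · right
    refine VALJ.main (p := p) ι τ⁻¹ hτ3' π y hy hn hk hkpos h6 (hext _ _ ?_)
    have h1 : π (VALJ.sA τ⁻¹ hτ3' g) * π (VALJ.sA τ hτ3 g) = 1 := by
      rw [← map_mul]
      have h2 : VALJ.sA τ⁻¹ hτ3' (g : F) * VALJ.sA τ hτ3 (g : F) = 1 := by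
        apply Subtype.ext
        change τ⁻¹ (g : F) * τ (g : F) = 1
        rw [← MulChar.mul_apply, inv_mul_cancel, MulChar.one_apply_coe]
      rw [h2, map_one]
    rw [hval] at h1
    have hω0 : ω ≠ 0 := by
      intro h
      rw [h] at hω3
      norm_num at hω3
    apply mul_right_cancel₀ hω0
    rw [h1, ← pow_succ, hω3]
  · left
    exact VALJ.main (p := p) ι τ hτ3 π x hx hn hk hkpos h6 (hext _ _ hval)

end Pool.Agent.Work.ES
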